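import Mathlib

set_option autoImplicit false

/-!
# Group data of skew translation generalized quadrangles (MP_6ecf75_co)
-/

namespace Pool.Agent.Helper90.ST

/-- Group data of a finite skew translation quadrangle of order `(s,t)`: `A i` are the
stabilisers of the `t+1` lines on a point not collinear with `x`, `S` is the group of
symmetries about `x`. -/
structure IsKF {G ι : Type} [Group G] (A : ι → Subgroup G) (S : Subgroup G) (s t : ℕ) : Prop where
  cardG : Nat.card G = s ^ 2 * t
  cardI : Nat.card ι = t + 1
  cardA : ∀ i, Nat.card (A i) = s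
  cardS : Nat.card S = t
  normS : S.Normal
  K1 : ∀ i j k, i ≠ j → j ≠ k → i ≠ k → ∀ a ∈ A i, ∀ b ∈ A j, a * b ∈ A k → a = 1
  K2 : ∀ i j, i ≠ j → ∀ a ∈ A i, ∀ b ∈ A j, a * b ∈ S → a = 1

/-- A partial congruence partition: pairwise trivially intersecting subgroups of order `s` in
a group of order `s^2`. -/
structure IsPCP {G ι : Type} [Group G] (H : ι → Subgroup G) (s : ℕ) : Prop where
  cardG : Nat.card G = s ^ 2
  cardH : ∀ i, Nat.card (H i) = s
  disj : ∀ i j, i ≠ j → ∀ a ∈ H i, a ∈ H j → a = 1

/-- The subgroup generated by all `p`-th powers and commutators. -/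
def PhiP (p : ℕ) (G : Type) [Group G] : Subgroup G :=
  Subgroup.closure {g | ∃ x y : G, g = x ^ p ∨ g = x * y * x⁻¹ * y⁻¹}

open Classical in
/-- a subgroup as a finset -/
noncomputable def SF {G : Type} [Group G] [Fintype G] (H : Subgroup G) : Finset G :=
  Finset.univ.filter (fun g => g ∈ H)

@[simp] theorem mem_SF {G : Type} [Group G] [Fintype G] {H : Subgroup G} {g : G} :
    g ∈ SF H ↔ g ∈ H := by
  simp [SF]

theorem card_SF {G : Type} [Group G] [Fintype G] (H : Subgroup G) :
    (SF H).card = Nat.card H := by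
  classical
  rw [Nat.card_eq_fintype_card, Fintype.card_subtype]
  congr 1

open Classical in
/-- the union of the `A i` -/
noncomputable def EE {G ι : Type} [Group G] [Fintype G] (A : ι → Subgroup G) : Finset G :=
  Finset.univ.filter (fun g => ∃ i, g ∈ A i)

@[simp] theorem mem_EE {G ι : Type} [Group G] [Fintype G] {A : ι → Subgroup G} {g : G} :
    g ∈ EE A ↔ ∃ i, g ∈ A i := by
  simp [EE]

end Pool.Agent.Helper90.ST
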