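import Pool.Agent.Helper51.ST.PG
import Pool.Agent.Helper12.ST.KF
import Pool.Agent.Helper52.ST.EVS
import Pool.Agent.Helper19.ST.EVR

set_option autoImplicit false

/-! # Piece EVM of S09391: the case s = t even (written by helper80) -/

namespace Pool.Agent.Helper90.ST



/-! ## sign functions -/

/-- the sign of an element with respect to a subgroup `N` -/
noncomputable def evE {G : Type} [Group G] (N : Subgroup G) (g : G) : ℤ := by
  classical exact if g ∈ N then 1 else -1

theorem evE_one {G : Type} [Group G] {N : Subgroup G} {g : G} : evE N g = 1 ↔ g ∈ N := by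
  classical
  unfold evE
  by_cases h : g ∈ N <;> simp [h]

theorem evE_cases {G : Type} [Group G] (N : Subgroup G) (g : G) : evE N g = 1 ∨ evE N g = -1 := by
  classical
  unfold evE
  by_cases h : g ∈ N <;> simp [h]

theorem evE_sq {G : Type} [Group G] (N : Subgroup G) (g : G) : evE N g * evE N g = 1 := by
  rcases evE_cases N g with h | h <;> rw [h] <;> norm_num

theorem rel_mul_mem {G : Type} [Group G] {N K : Subgroup G} (hidx : N.relIndex K = 2) {a b : G}
    (ha : a ∈ K) (hb : b ∈ K) : a * b ∈ N ↔ (a ∈ N ↔ b ∈ N) := by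
  have h : (N.subgroupOf K).index = 2 := hidx
  have := Subgroup.mul_mem_iff_of_index_two h (a := ⟨a, ha⟩) (b := ⟨b, hb⟩)
  simpa [Subgroup.mem_subgroupOf] using this

theorem evE_mul {G : Type} [Group G] {N K : Subgroup G} (hidx : N.relIndex K = 2) {a b : G}
    (ha : a ∈ K) (hb : b ∈ K) : evE N (a * b) = evE N a * evE N b := by
  classical
  have h := rel_mul_mem hidx ha hb
  unfold evE
  by_cases h1 : a ∈ N <;> by_cases h2 : b ∈ N <;> simp [h, h1, h2]

theorem evE_conj {G : Type} [Group G] {N : Subgroup G} (hN : N.Normal) (a g : G) :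
    evE N (g⁻¹ * a * g) = evE N a := by
  classical
  have h : g⁻¹ * a * g ∈ N ↔ a ∈ N := by
    constructor
    · intro h
      have := hN.conj_mem _ h g
      simpa [mul_assoc] using this
    · intro h
      have := hN.conj_mem _ h g⁻¹
      simpa using this
  unfold evE
  simp [h]

/-- the sign of the square -/
noncomputable def chiE {G : Type} [Group G] (N : Subgroup G) (g : G) : ℤ := evE N (g * g)

/-- the sign of the commutator -/
noncomputable def cE {G : Type} [Group G] (N : Subgroup G) (g h : G) : ℤ :=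
  evE N (g⁻¹ * h⁻¹ * g * h)

section signs

variable {G : Type} [Group G] {N K : Subgroup G}

theorem cE_mul_right (hN : N.Normal) (hK : K.Normal) (hidx : N.relIndex K = 2)
    (hcK : ∀ x y : G, x⁻¹ * y⁻¹ * x * y ∈ K) (g h k : G) :
    cE N g (h * k) = cE N g h * cE N g k := by
  unfold cE
  have e : g⁻¹ * (h * k)⁻¹ * g * (h * k)
      = (g⁻¹ * k⁻¹ * g * k) * (k⁻¹ * (g⁻¹ * h⁻¹ * g * h) * k) := by group
  rw [e, evE_mul hidx (hcK _ _), evE_conj hN, mul_comm]
  have := hK.conj_mem _ (hcK g h) k⁻¹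
  simpa using this

theorem cE_symm (g h : G) : cE N g h = cE N h g := by
  classical
  unfold cE
  have e : g⁻¹ * h⁻¹ * g * h = (h⁻¹ * g⁻¹ * h * g)⁻¹ := by group
  rw [e]
  unfold evE
  simp only [inv_mem_iff]

theorem cE_one_right (g : G) : cE N g 1 = 1 := by
  unfold cE
  rw [evE_one]
  simp [N.one_mem]

theorem chiE_mul (hN : N.Normal) (hK : K.Normal) (hidx : N.relIndex K = 2)
    (hcK : ∀ x y : G, x⁻¹ * y⁻¹ * x * y ∈ K) (hsK : ∀ x : G, x * x ∈ K) (g h : G) :
    chiE N (g * h) = chiE N g * chiE N h * cE N g h := by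
  have h1 : cE N g h⁻¹ = cE N g h := by
    have h2 := cE_mul_right hN hK hidx hcK g h h⁻¹
    rw [mul_inv_cancel, cE_one_right] at h2
    rcases evE_cases N (g⁻¹ * h⁻¹ * g * h) with h3 | h3
    · have h4 : cE N g h = 1 := h3
      rw [h4] at h2 ⊢
      linarith
    · have h4 : cE N g h = -1 := h3
      rw [h4] at h2 ⊢
      linarith
  rw [← h1]
  unfold chiE cE
  have e : g * h * (g * h) = (g * g) * ((g⁻¹ * (h⁻¹)⁻¹ * g * h⁻¹) * (h * h)) := by group
  rw [e, evE_mul hidx (hsK _) (K.mul_mem (hcK _ _) (hsK _)), evE_mul hidx (hcK _ _) (hsK _)]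
  ring

theorem sum_char [Fintype G] (f : G → ℤ) (hf : ∀ g h, f (g * h) = f g * f h)
    (hf1 : ∀ g, f g = 1 ∨ f g = -1) (H : Subgroup G) :
    ((∀ g ∈ H, f g = 1) ∧ ∑ g ∈ SF H, f g = Nat.card H) ∨
      ((∃ g ∈ H, f g ≠ 1) ∧ ∑ g ∈ SF H, f g = 0) := by
  classical
  by_cases h : ∀ g ∈ H, f g = 1
  · left
    refine ⟨h, ?_⟩
    rw [Finset.sum_congr rfl (fun g hg => h g (mem_SF.1 hg))]
    simp [card_SF]
  · right
    push Not at h
    obtain ⟨g, hg, hg1⟩ := h
    refine ⟨⟨g, hg, hg1⟩, ?_⟩
    have e : ∑ x ∈ SF H, f x = ∑ x ∈ SF H, f (g * x) := by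
      symm
      refine Finset.sum_bij (fun x _ => g * x) ?_ ?_ ?_ ?_
      · intro x hx
        exact mem_SF.2 (H.mul_mem hg (mem_SF.1 hx))
      · intro x _ y _ hxy
        exact mul_left_cancel hxy
      · intro y hy
        refine ⟨g⁻¹ * y, mem_SF.2 (H.mul_mem (H.inv_mem hg) (mem_SF.1 hy)), by simp⟩
      · intro x _
        rfl
    have e2 : ∑ x ∈ SF H, f (g * x) = f g * ∑ x ∈ SF H, f x := by
      rw [Finset.mul_sum]
      exact Finset.sum_congr rfl (fun x _ => hf g x)
    rcases hf1 g with h1 | h1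
    · exact absurd h1 hg1
    · rw [e2, h1] at e
      linarith

end signs

section main

variable {G ι : Type} [Group G] {A : ι → Subgroup G} {S : Subgroup G} {q : ℕ}

theorem even_elementary (h : IsKF A S q q) {n : ℕ} (hn : 1 ≤ n) (hq : q = 2 ^ n)
    (hsq : ∀ x : G, x * x ∈ S) : ∀ x : G, x * x = 1 := by
  classical
  by_contra hne
  push Not at hne
  obtain ⟨x0, hx0⟩ := hne
  have hq1 : 1 < q := by
    rw [hq]
    exact Nat.one_lt_two_pow (by omega)
  have hq0 : 0 < q := by omega
  have : Finite G := h.finite_G hq0 hq0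
  have : Finite ι := h.finite_ι
  let _ : Fintype G := Fintype.ofFinite G
  let _ : Fintype ι := Fintype.ofFinite ι
  have : Fact (Nat.Prime 2) := ⟨Nat.prime_two⟩
  have := h.normS
  have hG2 : IsPGroup 2 G := by
    apply IsPGroup.of_card (n := 3 * n)
    rw [h.cardG, hq]
    ring
  have hE1 : ∀ x ∈ EE A, x * x = 1 := by
    intro x hx
    obtain ⟨i, hi⟩ := mem_EE.1 hx
    exact even_sq h hq1 hsq i x hi
  -- every element is `σ x`
  have hσx : ∀ g : G, ∃ σ ∈ S, ∃ x ∈ EE A, σ * x = g := by
    intro g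
    have h1 := even_transversal h hq1 (fun g' => if g' = g then (1 : ℤ) else 0)
    rw [Finset.sum_ite_eq' Finset.univ g] at h1
    simp only [Finset.mem_univ, if_true] at h1
    by_contra hc
    push Not at hc
    have h2 : ∑ σ ∈ SF S, ∑ x ∈ EE A, (if σ * x = g then (1 : ℤ) else 0) = 0 := by
      refine Finset.sum_eq_zero (fun σ hσ => Finset.sum_eq_zero (fun x hx => ?_))
      rw [if_neg (hc σ (mem_SF.1 hσ) x hx)]
    rw [h2] at h1
    norm_num at h1
  -- the subgroup generated by squares
  let K : Subgroup G := Subgroup.closure {g | ∃ x : G, g = x * x}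
  have hKsq : ∀ x : G, x * x ∈ K := fun x => Subgroup.subset_closure ⟨x, rfl⟩
  have hKle : ∀ N : Subgroup G, (∀ x : G, x * x ∈ N) → K ≤ N := by
    intro N hN
    refine (Subgroup.closure_le _).2 ?_
    rintro _ ⟨x, rfl⟩
    exact hN x
  have hKn : K.Normal := by
    refine ⟨fun k hk g => ?_⟩
    refine Subgroup.closure_induction (p := fun k _ => g * k * g⁻¹ ∈ K) ?_ ?_ ?_ ?_ hk
    · rintro _ ⟨x, rfl⟩
      have : g * (x * x) * g⁻¹ = (g * x * g⁻¹) * (g * x * g⁻¹) := by group
      rw [this]
      exact hKsq _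
    · simp [K.one_mem]
    · intro a b _ _ ha hb
      have : g * (a * b) * g⁻¹ = (g * a * g⁻¹) * (g * b * g⁻¹) := by group
      rw [this]
      exact K.mul_mem ha hb
    · intro a _ ha
      have : g * a⁻¹ * g⁻¹ = (g * a * g⁻¹)⁻¹ := by group
      rw [this]
      exact K.inv_mem ha
  have hcK : ∀ x y : G, x⁻¹ * y⁻¹ * x * y ∈ K := by
    intro x y
    have : x⁻¹ * y⁻¹ * x * y = (x⁻¹ * x⁻¹) * ((x * y⁻¹) * (x * y⁻¹)) * (y * y) := by group
    rw [this]
    exact K.mul_mem (K.mul_mem (hKsq _) (hKsq _)) (hKsq _)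
  have hKS : K ≤ S := hKle S hsq
  have hKbot : (⊥ : Subgroup G) < K := by
    rw [bot_lt_iff_ne_bot]
    intro hb
    have := hKsq x0
    rw [hb, Subgroup.mem_bot] at this
    exact hx0 this
  have hcardK : 2 ≤ Nat.card K := by
    have : 1 < Nat.card K := by
      rw [Subgroup.one_lt_card_iff_ne_bot]
      exact hKbot.ne'
    omega
  -- (o)
  have hq4 : 4 ≤ q := by
    have hSbot : (⊥ : Subgroup G) < S := by
      rw [bot_lt_iff_ne_bot]
      intro hb
      have := h.cardS
      rw [hb] at this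
      simp at this
      omega
    obtain ⟨N0, hN0, -, hlt, hidx⟩ := exists_index_p hG2 ⊥ S inferInstance h.normS hSbot
    have hcomm := comm_mem_of_relIndex hG2 N0 S hN0 h.normS hlt.le hidx
    have hK0 : K ≤ N0 := by
      apply hKle
      intro g
      obtain ⟨σ, hσ, x, hx, rfl⟩ := hσx g
      have hx2 := hE1 x hx
      have hxi : x⁻¹ = x := inv_eq_of_mul_eq_one_left hx2
      have e : σ * x * (σ * x) = (σ * σ) * (σ⁻¹ * x⁻¹ * σ * x) := by
        rw [hxi]; group
      rw [e]
      refine N0.mul_mem ?_ (hcomm σ hσ x)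
      rw [rel_mul_mem hidx hσ hσ]
    have h1 : Nat.card N0 * 2 = Nat.card S := by
      have h3 := Subgroup.card_mul_index (N0.subgroupOf S)
      have h4 : Nat.card (N0.subgroupOf S) = Nat.card N0 :=
        Nat.card_congr (Subgroup.subgroupOfEquivOfLe hlt.le).toEquiv
      have h5 : (N0.subgroupOf S).index = 2 := hidx
      rw [h4, h5] at h3
      exact h3
    have h2 : Nat.card K ≤ Nat.card N0 := Subgroup.card_le_of_le hK0
    rw [h.cardS] at h1
    omega
  -- (p)
  obtain ⟨N, hN, -, hlt, hidx⟩ := exists_index_p hG2 ⊥ K inferInstance hKn hKbot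
  have hNK := hlt.le
  have hcommN := comm_mem_of_relIndex hG2 N K hN hKn hNK hidx
  have hcm : ∀ g a b : G, cE N g (a * b) = cE N g a * cE N g b :=
    cE_mul_right hN hKn hidx hcK
  have hcc : ∀ g a : G, cE N g a = 1 ∨ cE N g a = -1 := fun g a => evE_cases N _
  have hchi : ∀ g a : G, chiE N (g * a) = chiE N g * chiE N a * cE N g a :=
    chiE_mul hN hKn hidx hcK hKsq
  have hchic : ∀ g : G, chiE N g = 1 ∨ chiE N g = -1 := fun g => evE_cases N _
  have hchiE : ∀ x ∈ EE A, chiE N x = 1 := by
    intro x hx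
    unfold chiE
    rw [evE_one, hE1 x hx]
    exact N.one_mem
  have hckK : ∀ k ∈ K, ∀ g : G, cE N k g = 1 := by
    intro k hk g
    exact evE_one.2 (hcommN k hk g)
  set E : Finset G := EE A with hE
  have hEcard : (E.card : ℤ) = (q : ℤ) ^ 2 := by
    have h1 := even_transversal h hq1 (fun _ => (1 : ℤ))
    simp only [Finset.sum_const, Finset.card_univ, card_SF, h.cardS, mul_one,
      nsmul_eq_mul] at h1
    have h2 : (Fintype.card G : ℤ) = (q : ℤ) ^ 3 := by
      rw [← Nat.card_eq_fintype_card, h.cardG]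
      push_cast
      ring
    rw [h2] at h1
    have hq0' : (q : ℤ) ≠ 0 := by exact_mod_cast hq0.ne'
    have : (q : ℤ) * E.card = q * (q : ℤ) ^ 2 := by
      rw [← h1]; ring
    exact mul_left_cancel₀ hq0' this
  have hone : (1 : G) ∈ E := by
    have : Nonempty ι := by
      have := h.cardI
      by_contra hc
      rw [not_nonempty_iff] at hc
      rw [Nat.card_of_isEmpty] at this
      omega
    obtain ⟨i⟩ := this
    exact mem_EE.2 ⟨i, (A i).one_mem⟩
  -- character sums
  set Sg : G → ℤ := fun g => ∑ x ∈ E, cE N g x with hSg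
  have hq0Z : (0 : ℤ) < q := by exact_mod_cast hq0
  have hq4Z : (4 : ℤ) ≤ q := by exact_mod_cast hq4
  have hcardGZ : (Fintype.card G : ℤ) = (q : ℤ) ^ 3 := by
    rw [← Nat.card_eq_fintype_card, h.cardG]
    push_cast
    ring
  have hSgsq : ∀ g : G, Sg g * Sg g = (q : ℤ) ^ 2 + q * ((∑ a, cE N g a) - ∑ σ ∈ SF S, cE N g σ) := by
    intro g
    have h1 := even_rds h hq1 (fun a => cE N g a)
    simp only [cE_one_right, nsmul_eq_mul] at h1
    have h2 : Sg g * Sg g = ∑ x ∈ E, ∑ y ∈ E, cE N g (x * y) := by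
      rw [hSg]
      simp only
      rw [Finset.sum_mul_sum]
      refine Finset.sum_congr rfl (fun x _ => Finset.sum_congr rfl (fun y _ => ?_))
      rw [hcm]
    rw [h2, h1]
    push_cast
    ring
  have htop : ∀ f : G → ℤ, ∑ g ∈ SF (⊤ : Subgroup G), f g = ∑ g, f g := by
    intro f
    refine Finset.sum_congr ?_ (fun _ _ => rfl)
    ext g
    simp
  -- three cases
  have hR : ∀ g : G, (∀ a, cE N g a = 1) → Sg g = (q : ℤ) ^ 2 := by
    intro g hg
    rw [hSg]
    simp only [hg]
    rw [Finset.sum_const, nsmul_eq_mul, mul_one, hEcard]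
  have hnR : ∀ g : G, (¬ ∀ a, cE N g a = 1) → Sg g * Sg g = 0 ∧ (∀ σ ∈ S, cE N g σ = 1) ∨
      Sg g * Sg g = (q : ℤ) ^ 2 := by
    intro g hg
    have h1 : ∑ a, cE N g a = 0 := by
      rcases sum_char (cE N g) (hcm g) (hcc g) ⊤ with h2 | h2
      · exact absurd (fun a => h2.1 a (Subgroup.mem_top a)) hg
      · rw [← htop]
        exact h2.2
    rw [hSgsq, h1]
    rcases sum_char (cE N g) (hcm g) (hcc g) S with h2 | h2
    · left
      refine ⟨?_, h2.1⟩
      rw [h2.2, h.cardS]
      ring
    · right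
      rw [h2.2]
      ring
  have hnRabs : ∀ g : G, (¬ ∀ a, cE N g a = 1) → |Sg g| ≤ q := by
    intro g hg
    rcases hnR g hg with h1 | h1
    · have : Sg g = 0 := by simpa using h1.1
      rw [this]
      simp
    · apply abs_le_of_sq_le_sq _ hq0Z.le
      nlinarith [h1]
  -- Γ
  set Γ : ℤ := ∑ g, chiE N g with hΓ
  have hΓ2 : Γ * Γ = (q : ℤ) ^ 3 * ∑ g, (if ∀ a, cE N g a = 1 then chiE N g else 0) := by
    have h1 : Γ * Γ = ∑ g, ∑ k, chiE N g * chiE N (g * k) := by
      rw [hΓ, Finset.sum_mul_sum]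
      refine Finset.sum_congr rfl (fun g _ => ?_)
      rw [← Finset.mul_sum, ← Finset.mul_sum]
      congr 1
      exact (Equiv.sum_comp (Equiv.mulLeft g) (fun k => chiE N k)).symm
    have h2 : ∀ g k : G, chiE N g * chiE N (g * k) = chiE N k * cE N k g := by
      intro g k
      rw [hchi, cE_symm k g]
      rcases hchic g with h3 | h3 <;> rw [h3] <;> ring
    simp only [h2] at h1
    rw [Finset.sum_comm] at h1
    rw [h1, Finset.mul_sum]
    refine Finset.sum_congr rfl (fun k _ => ?_)
    rw [← Finset.mul_sum]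
    by_cases hk : ∀ a, cE N k a = 1
    · rw [if_pos hk]
      simp only [hk]
      rw [Finset.sum_const, Finset.card_univ, nsmul_eq_mul, hcardGZ]
      ring
    · rw [if_neg hk]
      have h3 : ∑ a, cE N k a = 0 := by
        rcases sum_char (cE N k) (hcm k) (hcc k) ⊤ with h2 | h2
        · exact absurd (fun a => h2.1 a (Subgroup.mem_top a)) hk
        · rw [← htop]
          exact h2.2
      rw [h3]
      ring
  have hKR : ∀ k ∈ K, ∀ a, cE N k a = 1 := hckK
  by_cases hii : ∀ g : G, (∀ a, cE N g a = 1) → chiE N g = 1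
  · -- case (ii)
    -- number of elements of S ∩ R and of R
    set r : ℤ := ∑ g, (if ∀ a, cE N g a = 1 then (1 : ℤ) else 0) with hr
    have hΓ2' : Γ * Γ = (q : ℤ) ^ 3 * r := by
      rw [hΓ2, hr]
      congr 1
      refine Finset.sum_congr rfl (fun g _ => ?_)
      by_cases hg : ∀ a, cE N g a = 1
      · rw [if_pos hg, if_pos hg, hii g hg]
      · rw [if_neg hg, if_neg hg]
    set rS : ℤ := ∑ σ ∈ SF S, (if ∀ a, cE N σ a = 1 then (1 : ℤ) else 0) with hrS
    have hrS2 : 2 ≤ rS := by
      have h1 : ∑ k ∈ SF K, (1 : ℤ) ≤ rS := by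
        rw [hrS]
        calc ∑ k ∈ SF K, (1 : ℤ)
            = ∑ k ∈ SF K, (if ∀ a, cE N k a = 1 then (1 : ℤ) else 0) := by
              refine Finset.sum_congr rfl (fun k hk => ?_)
              rw [if_pos (hKR k (mem_SF.1 hk))]
          _ ≤ _ := by
              refine Finset.sum_le_sum_of_subset_of_nonneg ?_ ?_
              · intro k hk
                exact mem_SF.2 (hKS (mem_SF.1 hk))
              · intro k _ _
                split_ifs <;> norm_num
      rw [Finset.sum_const, card_SF, nsmul_eq_mul, mul_one] at h1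
      have : (2 : ℤ) ≤ (Nat.card K : ℤ) := by exact_mod_cast hcardK
      linarith
    have hΓlow : (q : ℤ) ^ 2 + 2 * q ≤ Γ := by
      have h1 : Γ = ∑ σ ∈ SF S, chiE N σ * Sg σ := by
        rw [hΓ, even_transversal h hq1]
        refine Finset.sum_congr rfl (fun σ _ => ?_)
        rw [hSg, Finset.mul_sum]
        refine Finset.sum_congr rfl (fun x hx => ?_)
        rw [hchi, hchiE x hx]
        ring
      have h2 : ∑ σ ∈ SF S, (((q : ℤ) ^ 2 + q) * (if ∀ a, cE N σ a = 1 then (1 : ℤ) else 0) - q)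
          ≤ Γ := by
        rw [h1]
        refine Finset.sum_le_sum (fun σ _ => ?_)
        by_cases hg : ∀ a, cE N σ a = 1
        · rw [if_pos hg, hii σ hg, hR σ hg]
          linarith
        · rw [if_neg hg]
          have h3 := hnRabs σ hg
          rw [abs_le] at h3
          rcases hchic σ with h4 | h4 <;> rw [h4] <;> linarith
      rw [Finset.sum_sub_distrib, ← Finset.mul_sum, ← hrS, Finset.sum_const, card_SF, h.cardS,
        nsmul_eq_mul] at h2
      nlinarith
    have hΓup : (q : ℤ) ^ 2 * Γ ≤ ((q : ℤ) ^ 2 - q) * r + (q : ℤ) ^ 4 := by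
      have h1 : (q : ℤ) ^ 2 * Γ = ∑ g, chiE N g * Sg g := by
        rw [hSg]
        simp only [Finset.mul_sum]
        rw [Finset.sum_comm]
        have h2 : ∀ x ∈ E, ∑ g, chiE N g * cE N g x = Γ := by
          intro x hx
          rw [hΓ]
          rw [← Equiv.sum_comp (Equiv.mulRight x) (fun k => chiE N k)]
          refine Finset.sum_congr rfl (fun g _ => ?_)
          simp only [Equiv.coe_mulRight]
          rw [hchi, hchiE x hx]
          ring
        rw [Finset.sum_congr rfl h2, Finset.sum_const, nsmul_eq_mul, hEcard]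
      rw [h1]
      calc ∑ g, chiE N g * Sg g
          ≤ ∑ g, (((q : ℤ) ^ 2 - q) * (if ∀ a, cE N g a = 1 then (1 : ℤ) else 0) + q) := by
            refine Finset.sum_le_sum (fun σ _ => ?_)
            by_cases hg : ∀ a, cE N σ a = 1
            · rw [if_pos hg, hii σ hg, hR σ hg]
              linarith
            · rw [if_neg hg]
              have h3 := hnRabs σ hg
              rw [abs_le] at h3
              rcases hchic σ with h4 | h4 <;> rw [h4] <;> linarith
        _ = _ := by
            rw [Finset.sum_add_distrib, ← Finset.mul_sum, ← hr, Finset.sum_const,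
              Finset.card_univ, nsmul_eq_mul, hcardGZ]
            ring
    have hΓlt : Γ < (q : ℤ) ^ 3 := by
      have h1 : ∃ g : G, chiE N g ≠ 1 := by
        by_contra hc
        push Not at hc
        have : K ≤ N := hKle N (fun x => evE_one.1 (hc x))
        exact absurd this (not_le_of_gt hlt)
      obtain ⟨g, hg⟩ := h1
      have h2 : Γ < ∑ _g : G, (1 : ℤ) := by
        rw [hΓ]
        refine Finset.sum_lt_sum ?_ ⟨g, Finset.mem_univ _, ?_⟩
        · intro k _
          rcases hchic k with h4 | h4 <;> rw [h4]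
          norm_num
        · rcases hchic g with h4 | h4
          · exact absurd h4 hg
          · rw [h4]; norm_num
      rw [Finset.sum_const, Finset.card_univ, nsmul_eq_mul, mul_one, hcardGZ] at h2
      exact h2
    -- `(Γ - q^3) ((q-1) Γ - q^3) ≥ 0`
    have h1 : 0 ≤ (Γ - (q : ℤ) ^ 3) * (((q : ℤ) - 1) * Γ - (q : ℤ) ^ 3) := by
      have h2 : (q : ℤ) ^ 2 * ((q : ℤ) ^ 2 * Γ) ≤ (q : ℤ) ^ 2 * (((q : ℤ) ^ 2 - q) * r + (q : ℤ) ^ 4) :=
        mul_le_mul_of_nonneg_left hΓup (by positivity)
      have h3 : (q : ℤ) ^ 2 * (((q : ℤ) ^ 2 - q) * r + (q : ℤ) ^ 4)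
          = ((q : ℤ) - 1) * (Γ * Γ) + (q : ℤ) ^ 6 := by
        rw [hΓ2']; ring
      rw [h3] at h2
      nlinarith [h2]
    have h2 : ((q : ℤ) - 1) * Γ - (q : ℤ) ^ 3 ≤ 0 := by
      by_contra hc
      push Not at hc
      have : (Γ - (q : ℤ) ^ 3) * (((q : ℤ) - 1) * Γ - (q : ℤ) ^ 3) < 0 :=
        mul_neg_of_neg_of_pos (by linarith) hc
      linarith
    have h3 : ((q : ℤ) - 1) * ((q : ℤ) ^ 2 + 2 * q) ≤ ((q : ℤ) - 1) * Γ :=
      mul_le_mul_of_nonneg_left hΓlow (by linarith)
    nlinarith [h2, h3, hq4Z, mul_pos hq0Z hq0Z]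
  · -- case (i)
    push Not at hii
    obtain ⟨g0, hg0R, hg0⟩ := hii
    have hg0' : chiE N g0 = -1 := (hchic g0).resolve_left hg0
    have hg0S : g0 ∈ S := by
      by_contra hns
      have h1 := even_rds h hq1 (fun g' => if g' = g0 then (1 : ℤ) else 0)
      have hne1 : ¬ (1 : G) = g0 := by
        intro h2
        exact hns (h2 ▸ S.one_mem)
      rw [Finset.sum_ite_eq' Finset.univ g0] at h1
      have h2 : ∑ σ ∈ SF S, (if σ = g0 then (1 : ℤ) else 0) = 0 := by
        refine Finset.sum_eq_zero (fun σ hσ => ?_)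
        rw [if_neg]
        rintro rfl
        exact hns (mem_SF.1 hσ)
      rw [h2] at h1
      simp only [hne1, Finset.mem_univ, if_true, if_false] at h1
      have hex : ∃ x ∈ E, ∃ y ∈ E, x * y = g0 := by
        by_contra hc
        push Not at hc
        have h3 : ∑ x ∈ EE A, ∑ y ∈ EE A, (if x * y = g0 then (1 : ℤ) else 0) = 0 := by
          refine Finset.sum_eq_zero (fun σ hσ => Finset.sum_eq_zero (fun x hx => ?_))
          rw [if_neg (hc σ hσ x hx)]
        rw [h3] at h1
        simp only [smul_zero, zero_add, sub_zero, nsmul_eq_mul, mul_one] at h1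
        linarith
      obtain ⟨x, hx, y, hy, hxy⟩ := hex
      have hx2 := hE1 x hx
      have hy2 := hE1 y hy
      have hxi : x⁻¹ = x := inv_eq_of_mul_eq_one_left hx2
      have hyi : y⁻¹ = y := inv_eq_of_mul_eq_one_left hy2
      have h3 := evE_one.1 (hg0R x)
      have e : g0⁻¹ * x⁻¹ * g0 * x = (g0 * g0)⁻¹ := by
        rw [← hxy]
        simp only [mul_inv_rev, hxi, hyi, mul_assoc]
        rw [← mul_assoc x x, hx2, one_mul]
      rw [e, inv_mem_iff] at h3
      exact hg0 (evE_one.2 h3)
    have hshift : ∀ g, chiE N (g0 * g) = - chiE N g := by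
      intro g
      rw [hchi, hg0', hg0R g]
      ring
    have hΓ0 : Γ = 0 := by
      have h1 : Γ = ∑ g, chiE N (g0 * g) :=
        (Equiv.sum_comp (Equiv.mulLeft g0) (fun k => chiE N k)).symm
      simp only [hshift] at h1
      rw [Finset.sum_neg_distrib, ← hΓ] at h1
      linarith
    have hΓS0 : ∑ σ ∈ SF S, chiE N σ = 0 := by
      have h1 : ∑ σ ∈ SF S, chiE N σ = ∑ σ ∈ SF S, chiE N (g0 * σ) := by
        symm
        refine Finset.sum_bij (fun x _ => g0 * x) ?_ ?_ ?_ ?_
        · intro x hx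
          exact mem_SF.2 (S.mul_mem hg0S (mem_SF.1 hx))
        · intro x _ y _ hxy
          exact mul_left_cancel hxy
        · intro y hy
          refine ⟨g0⁻¹ * y, mem_SF.2 (S.mul_mem (S.inv_mem hg0S) (mem_SF.1 hy)), by simp⟩
        · intro x _
          rfl
      simp only [hshift] at h1
      rw [Finset.sum_neg_distrib] at h1
      linarith
    have hsumE : ∑ x ∈ E, Sg x = (q : ℤ) ^ 2 := by
      have h1 := even_rds h hq1 (fun g => chiE N g)
      rw [hΓS0, ← hΓ, hΓ0] at h1
      have h2 : chiE N 1 = 1 := hchiE 1 hone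
      rw [h2] at h1
      simp only [sub_zero, smul_zero, add_zero, nsmul_eq_mul, mul_one] at h1
      rw [hSg]
      push_cast at h1
      rw [← h1]
      refine Finset.sum_congr rfl (fun x hx => Finset.sum_congr rfl (fun y hy => ?_))
      rw [hchi, hchiE x hx, hchiE y hy]
      ring
    have hSgnn : ∀ x ∈ E, 0 ≤ Sg x := by
      intro x hx
      obtain ⟨i, hi⟩ := mem_EE.1 hx
      have h1 : Sg x = (∑ j, ∑ a ∈ SF (A j), cE N x a) - q • cE N x 1 :=
        even_sum_E h hq1 (fun y => cE N x y)
      rw [h1, cE_one_right, nsmul_eq_mul, mul_one]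
      have h2 : ∑ a ∈ SF (A i), cE N x a = q := by
        have h3 : ∀ a ∈ SF (A i), cE N x a = 1 := by
          intro a ha
          have ha' := mem_SF.1 ha
          have hx2 := even_sq h hq1 hsq i x hi
          have ha2 := even_sq h hq1 hsq i a ha'
          have hxa2 := even_sq h hq1 hsq i (x * a) ((A i).mul_mem hi ha')
          have hxi : x⁻¹ = x := inv_eq_of_mul_eq_one_left hx2
          have hai : a⁻¹ = a := inv_eq_of_mul_eq_one_left ha2
          refine evE_one.2 ?_
          have : x⁻¹ * a⁻¹ * x * a = 1 := by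
            rw [hxi, hai, ← hxa2]
            group
          rw [this]
          exact N.one_mem
        rw [Finset.sum_congr rfl h3, Finset.sum_const, card_SF, h.cardA, nsmul_eq_mul, mul_one]
      have h4 : ∀ j, 0 ≤ ∑ a ∈ SF (A j), cE N x a := by
        intro j
        rcases sum_char (cE N x) (hcm x) (hcc x) (A j) with h5 | h5
        · rw [h5.2]
          positivity
        · rw [h5.2]
      have h6 := Finset.single_le_sum (f := fun j => ∑ a ∈ SF (A j), cE N x a)
        (fun j _ => h4 j) (Finset.mem_univ i)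
      simp only [h2] at h6
      linarith
    have hSg1 : Sg 1 = (q : ℤ) ^ 2 := by
      apply hR
      intro a
      rw [cE_symm]
      exact cE_one_right a
    have hSg0 : ∀ x ∈ E, x ≠ 1 → Sg x = 0 := by
      intro x hx hx1
      have h1 : Sg x + Sg 1 ≤ ∑ y ∈ E, Sg y := by
        have h2 : ∑ y ∈ ({x, 1} : Finset G), Sg y ≤ ∑ y ∈ E, Sg y := by
          refine Finset.sum_le_sum_of_subset_of_nonneg ?_ (fun y hy _ => hSgnn y hy)
          intro y hy
          simp only [Finset.mem_insert, Finset.mem_singleton] at hy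
          rcases hy with rfl | rfl
          · exact hx
          · exact hone
        rw [Finset.sum_pair hx1] at h2
        exact h2
      rw [hsumE, hSg1] at h1
      have := hSgnn x hx
      linarith
    have hkey : ∀ x ∈ E, x ≠ 1 → (¬ ∀ a, cE N x a = 1) ∧ ∀ σ ∈ S, cE N x σ = 1 := by
      intro x hx hx1
      have h0 := hSg0 x hx hx1
      have hn : ¬ ∀ a, cE N x a = 1 := by
        intro hc
        have := hR x hc
        rw [h0] at this
        nlinarith
      refine ⟨hn, ?_⟩
      rcases hnR x hn with h1 | h1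
      · exact h1.2
      · rw [h0] at h1
        nlinarith
    have hcen : ∀ σ ∈ S, ∀ g : G, σ⁻¹ * g⁻¹ * σ * g ∈ N := by
      intro σ hσ
      let D : Subgroup G :=
        { carrier := {g | cE N σ g = 1}
          mul_mem' := by
            intro a b ha hb
            simp only [Set.mem_ofPred_eq] at ha hb ⊢
            rw [hcm, ha, hb, one_mul]
          one_mem' := cE_one_right σ
          inv_mem' := by
            intro a ha
            simp only [Set.mem_ofPred_eq] at ha ⊢
            have h1 := hcm σ a a⁻¹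
            rw [mul_inv_cancel, cE_one_right, ha, one_mul] at h1
            exact h1.symm }
      have hD : (⨆ i, A i) ≤ D := by
        refine iSup_le (fun i a ha => ?_)
        show cE N σ a = 1
        by_cases ha1 : a = 1
        · rw [ha1]
          exact cE_one_right σ
        · rw [cE_symm]
          exact (hkey a (mem_EE.2 ⟨i, ha⟩) ha1).2 σ hσ
      rw [h.iSup_eq_top hq1 hq0] at hD
      intro g
      exact evE_one.1 (hD (Subgroup.mem_top g))
    have hι : Nonempty ι := by
      obtain ⟨i, -⟩ := mem_EE.1 hone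
      exact ⟨i⟩
    obtain ⟨i0⟩ := hι
    refine even_rank h hn hq hsq N K hN hKn hNK hKS hidx hcK hcen i0 ?_
    intro x hx hx1
    have h1 := (hkey x (mem_EE.2 ⟨i0, hx⟩) hx1).1
    push Not at h1
    obtain ⟨a, ha⟩ := h1
    exact ⟨a, fun hc => ha (evE_one.2 hc)⟩

end main

end Pool.Agent.Helper90.ST
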