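import Pool.Agent.Helper90.ST.T6
import Pool.Agent.Helper52.ST.SYL1
import Pool.Agent.Helper52.ST.T8
import Pool.Agent.Helper41.ST.SYL2
import Pool.Agent.Helper22.ST.CONG
import Pool.Agent.Helper68.ST.T7
import Pool.Agent.Helper90.ST.EVM

set_option autoImplicit false
set_option linter.style.haveILetI false

namespace Pool.Agent.Helper90.ST

section

variable {G ι : Type} [Group G] {A : ι → Subgroup G} {S : Subgroup G} {s t : ℕ}

/-- The group-theoretic core. -/
theorem kf_central (h : IsKF A S s t) (hs : 1 < s) (ht : 1 < t) (hst : s ≤ t ^ 2)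
    (hne : s ≠ t ^ 2) : ∀ σ ∈ S, ∀ g : G, σ * g = g * σ := by
  classical
  have hs0 : 0 < s := by omega
  have ht0 : 0 < t := by omega
  have := h.finite_G hs0 ht0
  have := h.finite_ι
  have := h.normS
  have hpcp := h.pcp hs0 ht0
  have hts : t ≤ s := by
    have h1 := hpcp.card_le hs
    rw [h.cardI] at h1
    omega
  obtain ⟨p, n, hp, hsn⟩ := pcp_prime_power hpcp h.cardI hs ht hst
  have : Fact p.Prime := ⟨hp⟩
  have hn : 1 ≤ n := by
    rcases Nat.eq_zero_or_pos n with h0 | h0
    · subst h0; simp at hsn; omega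
    · exact h0
  obtain ⟨m, htm⟩ := kf_t_pow h hp hn hsn ht hts
  have hm : 1 ≤ m := by
    rcases Nat.eq_zero_or_pos m with h0 | h0
    · subst h0; simp at htm; omega
    · exact h0
  -- commutativity of `G / S`
  have habel_of : (∀ x y : G ⧸ S, x * y = y * x) → ∀ x y : G, x * y * x⁻¹ * y⁻¹ ∈ S := by
    intro hc x y
    rw [← QuotientGroup.eq_one_iff]
    rw [QuotientGroup.mk_mul, QuotientGroup.mk_mul, QuotientGroup.mk_mul, QuotientGroup.mk_inv,
      QuotientGroup.mk_inv, hc (x : G ⧸ S) (y : G ⧸ S)]
    group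
  rcases Nat.lt_or_ge t s with hlt | hge
  · -- `s > t`
    have hmn : m < n := by
      by_contra hcon
      push Not at hcon
      have := Nat.pow_le_pow_right hp.pos hcon
      rw [← hsn, ← htm] at this
      omega
    obtain ⟨e, rfl⟩ : ∃ e, n = m + e := ⟨n - m, by omega⟩
    have he : 1 ≤ e := by omega
    have hsu : s = t * p ^ e := by rw [hsn, htm, pow_add]
    have hcop : Nat.Coprime (p ^ e + 1) (p ^ m) := by
      apply Nat.Coprime.pow_right
      rw [Nat.coprime_comm, Nat.Prime.coprime_iff_not_dvd hp]
      intro hd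
      have h1 : p ∣ p ^ e := dvd_pow_self p (by omega)
      have h2 : p ∣ 1 := (Nat.dvd_add_right h1).1 hd
      exact hp.one_lt.ne' (Nat.dvd_one.1 h2)
    have hcopu : Nat.Coprime (p ^ e + 1) (p ^ e) := by
      rw [Nat.add_comm, Nat.coprime_add_self_left]
      exact Nat.coprime_one_left _
    have hst1 : s + t = t * (p ^ e + 1) := by rw [hsu]; ring
    have hdvd : (p ^ e + 1) ∣ (p ^ m + 1) := by
      have h1 := kf_dvd h hs ht
      rw [hst1, hsu] at h1
      have h2 : t * (p ^ e + 1) ∣ t * ((t + 1) * (t * (p ^ e) ^ 2)) := by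
        refine h1.trans (dvd_of_eq ?_)
        ring
      have h3 := Nat.dvd_of_mul_dvd_mul_left ht0 h2
      have h4 : (p ^ e + 1) ∣ t + 1 := by
        refine Nat.Coprime.dvd_of_dvd_mul_right ?_ h3
        refine Nat.Coprime.mul_right ?_ ?_
        · rw [htm]; exact hcop
        · exact Nat.Coprime.pow_right 2 hcopu
      rwa [htm] at h4
    obtain ⟨a, hma, haodd⟩ := t5_num hp he hdvd
    have ha1 : a ≠ 1 := by
      intro ha
      apply hne
      subst ha
      rw [hsn, htm, hma, ← pow_mul]
      congr 1
      ring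
    have ha3 : 3 ≤ a := by
      obtain ⟨b, hb⟩ := haodd
      rcases Nat.eq_zero_or_pos b with h0 | h0
      · subst h0; simp at hb; exact absurd hb ha1
      · omega
    have hs' : s = (p ^ e) ^ (a + 1) := by
      rw [hsn, hma, ← pow_mul]; congr 1
    have ht' : t = (p ^ e) ^ a := by
      rw [htm, hma, ← pow_mul]
    have hcomm := pcp_comm hp he ha3 (fun i => (A i).map (QuotientGroup.mk' S))
      (by rw [← hs']; exact hpcp) (by rw [h.cardI, ht'])
    have habel := habel_of hcomm
    have hnd : ¬ (s + t) ∣ s ^ 2 := by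
      intro hd
      rw [hst1, hsu] at hd
      have h2 : t * (p ^ e + 1) ∣ t * (t * (p ^ e) ^ 2) := by
        refine hd.trans (dvd_of_eq ?_)
        ring
      have h3 := Nat.dvd_of_mul_dvd_mul_left ht0 h2
      have h4 : (p ^ e + 1) ∣ t := by
        refine Nat.Coprime.dvd_of_dvd_mul_right ?_ h3
        exact Nat.Coprime.pow_right 2 hcopu
      rw [htm] at h4
      have h5 := Nat.Coprime.eq_one_of_dvd hcop h4
      have : 0 < p ^ e := pow_pos hp.pos e
      omega
    exact central_of_conj h hp hsn htm hs ht hts habel (conj_of_congr h hs ht habel hnd)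
  · -- `s = t`
    have hst2 : s = t := le_antisymm hge hts
    subst hst2
    have hfull := full_pcp hp hn (fun i => (A i).map (QuotientGroup.mk' S))
      (by rw [← hsn]; exact hpcp) (by rw [h.cardI, ← hsn])
    have habel := habel_of hfull.1
    by_cases hp2 : p = 2
    · subst hp2
      have hsq : ∀ x : G, x * x ∈ S := by
        intro x
        rw [← QuotientGroup.eq_one_iff, QuotientGroup.mk_mul, ← sq]
        exact hfull.2 _
      have hel := even_elementary h hn hsn hsq
      intro σ _ g
      have h1 := hel (σ * g)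
      have h2 := hel σ
      have h3 := hel g
      calc σ * g = σ * ((σ * g) * (σ * g)) * g := by rw [h1]; group
        _ = (σ * σ) * (g * σ) * (g * g) := by group
        _ = g * σ := by rw [h2, h3]; group
    · have hnd : ¬ (s + s) ∣ s ^ 2 := by
        intro hd
        have h2 : s * 2 ∣ s * s := by
          rw [mul_two, ← sq]; exact hd
        have h3 := Nat.dvd_of_mul_dvd_mul_left hs0 h2
        rw [hsn] at h3
        have h4 := Nat.Prime.dvd_of_dvd_pow Nat.prime_two h3
        rcases (Nat.dvd_prime hp).1 h4 with h5 | h5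
        · omega
        · exact hp2 h5.symm
      exact central_of_conj h hp hsn hsn hs ht hts habel (conj_of_congr h hs ht habel hnd)

end

end Pool.Agent.Helper90.ST
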