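import Pool.Agent.Helper55.GQLocal

set_option autoImplicit false

/-!
# Higman's inequality `s ≤ t^2` for generalized quadrangles
-/

namespace Pool.Agent.Helper90.ST

open Pool.Agent.Helper55.GQ Finset

theorem higman {P L : Type} [Fintype P] [Fintype L] [Nonempty L] {I : P → L → Prop} {s t : ℕ}
    (H : IsGQ I s t) (ht : 1 < t) : s ≤ t ^ 2 := by
  classical
  obtain ⟨Q0⟩ := ‹Nonempty L›
  have : Nonempty L := ⟨Q0⟩
  -- the sum of the cubes over a row
  have hcube : ∀ Q : L, ∑ R : L, e I s t Q R ^ 3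
      = (t : ℤ) ^ 2 * ((t : ℤ) ^ 2 - 1) * ((t : ℤ) ^ 2 - s) := by
    intro Q
    rw [Finset.sum_congr rfl (fun R _ => e_cube H Q R), Finset.sum_add_distrib,
      Finset.sum_add_distrib, ← Finset.mul_sum, e_row H, Finset.sum_ite_eq]
    simp only [Finset.mem_univ, if_true, Finset.sum_const, Finset.card_univ, nsmul_eq_mul]
    rw [card_lines H]
    ring
  -- the total is a sum of squares
  have hpos : 0 ≤ ∑ a : L, ∑ b : L, ∑ c : L,
      (∑ Q : L, e I s t a Q * e I s t b Q * e I s t c Q) ^ 2 :=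
    Finset.sum_nonneg fun a _ => Finset.sum_nonneg fun b _ => Finset.sum_nonneg fun c _ =>
      sq_nonneg _
  have htot : ∑ a : L, ∑ b : L, ∑ c : L,
      (∑ Q : L, e I s t a Q * e I s t b Q * e I s t c Q) ^ 2
        = ∑ Q : L, ((((t : ℤ) + 1) * (s + t)) ^ 3 * ∑ R : L, e I s t Q R ^ 3) := by
    have h1 : ∀ a b c : L, (∑ Q : L, e I s t a Q * e I s t b Q * e I s t c Q) ^ 2
        = ∑ Q : L, ∑ R : L, (e I s t Q a * e I s t a R) *
            ((e I s t Q b * e I s t b R) * (e I s t Q c * e I s t c R)) := by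
      intro a b c
      rw [sq, Finset.sum_mul_sum]
      refine Finset.sum_congr rfl (fun Q _ => Finset.sum_congr rfl (fun R _ => ?_))
      rw [e_symm Q a, e_symm Q b, e_symm Q c]; ring
    have h2 : ∀ a b : L, ∑ c : L, (∑ Q : L, e I s t a Q * e I s t b Q * e I s t c Q) ^ 2
        = ∑ Q : L, ∑ R : L, (e I s t Q a * e I s t a R) *
            ((e I s t Q b * e I s t b R) * (((t : ℤ) + 1) * (s + t) * e I s t Q R)) := by
      intro a b
      rw [Finset.sum_congr rfl (fun c _ => h1 a b c), Finset.sum_comm]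
      refine Finset.sum_congr rfl (fun Q _ => ?_)
      rw [Finset.sum_comm]
      refine Finset.sum_congr rfl (fun R _ => ?_)
      rw [← Finset.mul_sum, ← Finset.mul_sum, e_sq H]
    have h3 : ∀ a : L, ∑ b : L, ∑ c : L, (∑ Q : L, e I s t a Q * e I s t b Q * e I s t c Q) ^ 2
        = ∑ Q : L, ∑ R : L, (e I s t Q a * e I s t a R) *
            ((((t : ℤ) + 1) * (s + t) * e I s t Q R) * (((t : ℤ) + 1) * (s + t) * e I s t Q R)) := by
      intro a
      rw [Finset.sum_congr rfl (fun b _ => h2 a b), Finset.sum_comm]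
      refine Finset.sum_congr rfl (fun Q _ => ?_)
      rw [Finset.sum_comm]
      refine Finset.sum_congr rfl (fun R _ => ?_)
      rw [← Finset.mul_sum, ← Finset.sum_mul, e_sq H]
    rw [Finset.sum_congr rfl (fun a _ => h3 a), Finset.sum_comm]
    refine Finset.sum_congr rfl (fun Q _ => ?_)
    rw [Finset.sum_comm]
    have h4 : ∀ R : L, ∑ a : L, (e I s t Q a * e I s t a R) *
            ((((t : ℤ) + 1) * (s + t) * e I s t Q R) * (((t : ℤ) + 1) * (s + t) * e I s t Q R))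
        = (((t : ℤ) + 1) * (s + t)) ^ 3 * e I s t Q R ^ 3 := by
      intro R
      rw [← Finset.sum_mul, e_sq H]; ring
    rw [Finset.sum_congr rfl (fun R _ => h4 R), ← Finset.mul_sum]
  rw [htot] at hpos
  simp_rw [hcube] at hpos
  rw [Finset.sum_const, Finset.card_univ, nsmul_eq_mul] at hpos
  by_contra hcon
  push Not at hcon
  have hL : (0 : ℤ) < Fintype.card L := by exact_mod_cast Fintype.card_pos
  have ht1 : (1 : ℤ) < t := by exact_mod_cast ht
  have hs : (t : ℤ) ^ 2 < s := by exact_mod_cast hcon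
  have hs0 : (0 : ℤ) < s := lt_trans (by positivity) hs
  have h1 : (0 : ℤ) < ((t : ℤ) ^ 2 - 1) := by nlinarith
  have h2 : (t : ℤ) ^ 2 * ((t : ℤ) ^ 2 - 1) * ((t : ℤ) ^ 2 - s) < 0 := by
    have h3 : (0 : ℤ) < (t : ℤ) ^ 2 * ((t : ℤ) ^ 2 - 1) := by positivity
    nlinarith
  have h3 : (0 : ℤ) < (((t : ℤ) + 1) * (s + t)) ^ 3 := by positivity
  have h4 : (((t : ℤ) + 1) * (s + t)) ^ 3 * ((t : ℤ) ^ 2 * ((t : ℤ) ^ 2 - 1) * ((t : ℤ) ^ 2 - s)) < 0 :=
    mul_neg_of_pos_of_neg h3 h2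
  have h5 := mul_neg_of_pos_of_neg hL h4
  linarith

end Pool.Agent.Helper90.ST
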