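import Pool.Agent.Helper51.ST.PG
import Pool.Agent.Helper51.ST.EXC
import Pool.Agent.Helper65.ST.NUM
import Pool.Agent.Helper82.ST.JN
import Pool.Agent.Helper82.ST.CLUB
import Pool.Agent.Helper87.ST.PCP

set_option autoImplicit false

/-!
# The PCP theorem: `p`-groups of order `s^2` with `t+1` components, `t = u^a`, `s = u^(a+1)`,
`a ≥ 3`, are elementary abelian.
-/

namespace Pool.Agent.Helper90.ST

theorem t6_card_mul_relIndex {G : Type} [Group G] (K L : Subgroup G) (h : K ≤ L) :
    Nat.card K * K.relIndex L = Nat.card L := by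
  have := Subgroup.relIndex_mul_relIndex ⊥ K L bot_le h
  rwa [Subgroup.relIndex_bot_left, Subgroup.relIndex_bot_left] at this

/-- `|H M| |H ∩ M| = |H| |M|` for `M` normal -/
theorem t6_card_sup_mul_card_inf {G : Type} [Group G] (H M : Subgroup G) [M.Normal] :
    Nat.card (H ⊔ M : Subgroup G) * Nat.card (H ⊓ M : Subgroup G) = Nat.card H * Nat.card M := by
  have e1 := t6_card_mul_relIndex M (H ⊔ M) le_sup_right
  have e2 := t6_card_mul_relIndex (H ⊓ M) H inf_le_left
  rw [Subgroup.relIndex_sup_right] at e1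
  rw [Subgroup.inf_relIndex_left] at e2
  rw [← e1, ← e2]
  ring

/-- normal subgroups of prescribed relative index in a normal subgroup -/
theorem t6_exists_normal_relIndex {p : ℕ} [Fact p.Prime] {G : Type} [Group G] [Finite G]
    (hG : IsPGroup p G) (M : Subgroup G) (hM : M.Normal) {k : ℕ} (hk : Nat.card M = p ^ k) (μ : ℕ)
    (hμ : μ ≤ k) : ∃ L : Subgroup G, L.Normal ∧ L ≤ M ∧ L.relIndex M = p ^ μ := by
  induction μ with
  | zero => exact ⟨M, hM, le_refl _, by simp⟩
  | succ μ ih =>
    obtain ⟨L, hL, hLM, hidx⟩ := ih (by omega)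
    have hp : p.Prime := Fact.out
    have hLne : L ≠ ⊥ := by
      rintro rfl
      rw [Subgroup.relIndex_bot_left, hk] at hidx
      have := Nat.pow_right_injective hp.two_le hidx
      omega
    obtain ⟨N, hN, _, hNL, hNidx⟩ := exists_index_p hG ⊥ L inferInstance hL (bot_lt_iff_ne_bot.2 hLne)
    refine ⟨N, hN, hNL.le.trans hLM, ?_⟩
    rw [← Subgroup.relIndex_mul_relIndex N L M hNL.le hLM, hNidx, hidx, pow_succ]
    ring

theorem pcp_comm {p e a : ℕ} (hp : p.Prime) (he : 1 ≤ e) (ha : 3 ≤ a) {G ι : Type} [Group G]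
    [Finite ι] (H : ι → Subgroup G) (h : IsPCP H ((p ^ e) ^ (a + 1)))
    (hι : Nat.card ι = (p ^ e) ^ a + 1) : ∀ x y : G, x * y = y * x := by
  classical
  by_contra hnc
  push Not at hnc
  have : Fact p.Prime := ⟨hp⟩
  have := Fintype.ofFinite ι
  set u := p ^ e with hu
  set t := u ^ a with ht
  set s := u ^ (a + 1) with hs
  have hu2 : 2 ≤ u := by
    calc 2 ≤ p := hp.two_le
      _ = p ^ 1 := (pow_one p).symm
      _ ≤ p ^ e := Nat.pow_le_pow_right hp.pos he
  have hu0 : 0 < u := by omega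
  have hst : s = t * u := by rw [hs, ht, pow_succ]
  have ht8 : 4 * u ≤ t := by
    have h1 : u ^ 3 ≤ t := Nat.pow_le_pow_right hu0 ha
    have h2 : 4 * u ≤ u ^ 3 := by
      calc 4 * u = (2 * 2) * u := by ring
        _ ≤ (u * u) * u := by gcongr
        _ = u ^ 3 := by ring
    omega
  have hs1 : 1 < s := by rw [hst]; nlinarith
  have hs0 : 0 < s := by omega
  have hGcard : Nat.card G = p ^ (e * (a + 1) * 2) := by
    rw [h.cardG, hs, hu, ← pow_mul, ← pow_mul, mul_assoc]
  have hGfin : Finite G := by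
    apply Nat.finite_of_card_ne_zero
    rw [h.cardG]; positivity
  have hpG : IsPGroup p G := IsPGroup.of_card hGcard
  have hprod : ∀ i j, i ≠ j → ∀ g : G, ∃ a ∈ H i, ∃ b ∈ H j, g = a * b :=
    fun i j hij g => h.mul_eq hs0 hij g
  have hMn := PhiP_normal p G
  set M := PhiP p G with hM
  -- `M ≠ ⊥`
  have hMne : M ≠ ⊥ := by
    intro hbot
    obtain ⟨x, y, hxy⟩ := hnc
    apply hxy
    have h1 := comm_mem_PhiP p x y
    rw [← hM, hbot, Subgroup.mem_bot] at h1
    have h2 : x * y = y * x := by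
      calc x * y = (x * y * x⁻¹ * y⁻¹) * (y * x) := by group
        _ = y * x := by rw [h1, one_mul]
    exact h2
  obtain ⟨k, hk⟩ := (IsPGroup.iff_card.1 (hpG.to_subgroup M))
  have hk1 : 1 ≤ k := by
    rcases Nat.eq_zero_or_pos k with h0 | h0
    · exfalso; apply hMne
      rw [h0, pow_zero] at hk
      exact Subgroup.eq_bot_of_card_eq M hk
    · exact h0
  -- the numbers `d i = p ^ ν i`
  have hν : ∀ i, ∃ n, Nat.card (H i ⊓ M : Subgroup G) = p ^ n := fun i =>
    IsPGroup.iff_card.1 (hpG.to_subgroup _)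
  choose ν hνc using hν
  have hgd : ∀ i, (H i ⊔ M).index * p ^ k = s * p ^ ν i := by
    intro i
    have h1 : Nat.card (H i ⊔ M : Subgroup G) * Nat.card (H i ⊓ M : Subgroup G)
        = Nat.card (H i) * Nat.card M := t6_card_sup_mul_card_inf (H i) M
    have h4 := Subgroup.index_mul_card (H i ⊔ M)
    have h5 : 0 < Nat.card (H i ⊔ M : Subgroup G) := Nat.card_pos
    rw [h.cardH, hk, hνc] at h1
    have hc : Nat.card G = s * s := by rw [h.cardG]; ring
    rw [hc] at h4
    -- index * card = s*s ; card * p^ν = s * p^k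
    have h6 : (H i ⊔ M).index * (s * p ^ k) = s * s * p ^ ν i := by
      rw [← h1, ← h4]; ring
    have h7 : s * ((H i ⊔ M).index * p ^ k) = s * (s * p ^ ν i) := by
      linarith
    exact Nat.eq_of_mul_eq_mul_left hs0 h7
  -- index ≥ p
  have hgp : ∀ i, p ≤ (H i ⊔ M).index := by
    intro i
    have h1 : H i ≠ ⊤ := by
      intro htop
      have h2 := h.cardH i
      rw [htop, Subgroup.card_top, h.cardG] at h2
      nlinarith
    have h2 := sup_PhiP_ne_top hpG (H i) h1
    obtain ⟨r, hr⟩ := hpG.index (H i ⊔ M)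
    rw [hr]
    rcases Nat.eq_zero_or_pos r with h0 | h0
    · exfalso
      rw [h0, pow_zero, Subgroup.index_eq_one] at hr
      exact h2 hr
    · calc p = p ^ 1 := (pow_one p).symm
        _ ≤ p ^ r := Nat.pow_le_pow_right hp.pos h0
  have h1 : ∑ i, (p ^ ν i - 1) ≤ p ^ k - 1 := by
    have := sum_card_le H h.disj M
    simp_rw [hνc] at this
    rwa [hk] at this
  have hw : M.index * p ^ k = s ^ 2 := by
    rw [← hk, Subgroup.index_mul_card, h.cardG]
  have h2 : ∑ i, ((H i ⊔ M).index - 1) ≤ M.index - 1 :=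
    sum_index_le H hprod M hMn (comm_mem_PhiP p)
  have hJ : ∀ N : Subgroup G, N.Normal → N ≤ M → N.relIndex M = p → ∀ J : Finset ι,
      (∀ i ∈ J, H i ⊓ M ≤ N) → ∀ i ∈ J, J.card ≤ 1 + (H i ⊔ M).index :=
    fun N hN hNM hidx J hJ i hi => card_J_le hpG H hprod N hN hNM hidx J hJ i hi
  have h3 : ∀ μ, 1 ≤ μ → μ ≤ k → (∑ i ∈ Finset.univ.filter (fun i => ν i < μ),
      (1 : ℝ) / (1 + (H i ⊔ M).index)) ≤ ((p : ℝ) ^ μ - 1) / (p - 1) := by
    intro μ _ hμk
    obtain ⟨L, hL, hLM, hidx⟩ := t6_exists_normal_relIndex hpG M hMn hk μ hμk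
    have hcl := club hpG H hprod M hMn hJ L hL hLM
    rw [hidx] at hcl
    push_cast at hcl
    refine le_trans (Finset.sum_le_sum_of_subset_of_nonneg ?_ ?_) hcl
    · intro i hi
      rw [Finset.mem_filter] at hi ⊢
      refine ⟨Finset.mem_univ _, ?_⟩
      intro heq
      -- `M = (H i ⊓ M) ⊔ L` would have at most `p^ν * |L|` elements
      have e1 : L.relIndex ((H i ⊓ M) ⊔ L) = L.relIndex (H i ⊓ M) :=
        Subgroup.relIndex_sup_right (H i ⊓ M) L
      rw [heq, hidx] at e1
      have e2 : L.relIndex (H i ⊓ M) ∣ Nat.card (H i ⊓ M : Subgroup G) :=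
        Subgroup.relIndex_dvd_card _ _
      rw [← e1, hνc] at e2
      have e3 := (Nat.pow_dvd_pow_iff_le_right hp.one_lt).1 e2
      omega
    · intro i _ _
      positivity
  -- `K ≥ t`
  have h4 : t ≤ p ^ k := by
    by_contra hlt
    push Not at hlt
    -- `p^k ≤ t / 2`
    have hk2 : 2 * p ^ k ≤ t := by
      have h5 : t = p ^ (e * a) := by rw [ht, hu, ← pow_mul]
      rw [h5] at hlt ⊢
      have h6 : k < e * a := (Nat.pow_lt_pow_iff_right hp.one_lt).1 hlt
      calc 2 * p ^ k ≤ p * p ^ k := by gcongr; exact hp.two_le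
        _ = p ^ (k + 1) := by ring
        _ ≤ p ^ (e * a) := Nat.pow_le_pow_right hp.pos h6
    -- the indices with `ν i = 0`
    let J : Finset ι := Finset.univ.filter (fun i => ν i = 0)
    have hJc : t + 1 ≤ J.card + (p ^ k - 1) := by
      have h5 : (Finset.univ.filter (fun i => ¬ ν i = 0)).card ≤ p ^ k - 1 := by
        refine le_trans ?_ h1
        rw [Finset.card_eq_sum_ones, Finset.sum_filter]
        apply Finset.sum_le_sum
        intro i _
        split_ifs with hi
        · exact Nat.zero_le _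
        · have : p ^ 1 ≤ p ^ ν i := Nat.pow_le_pow_right hp.pos (by omega)
          have := hp.two_le
          simp at *
          omega
      have h6 := Finset.card_filter_add_card_filter_not (s := (Finset.univ : Finset ι)) (fun i => ν i = 0)
      rw [Finset.card_univ, ← Nat.card_eq_fintype_card, hι] at h6
      have h7 : J.card = (Finset.univ.filter (fun i => ν i = 0)).card := rfl
      rw [h7]
      omega
    have hJab : (Nat.card J - 1) ^ 2 ≤ s := by
      refine abelian_components hpG (fun i : J => H i.1) hs1 ⟨h.cardG, fun i => h.cardH _, ?_⟩ ?_ hnc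
      · intro i j hij
        exact h.disj _ _ (fun hh => hij (Subtype.ext hh))
      · intro i x hx y hy
        have hi : ν i.1 = 0 := (Finset.mem_filter.1 i.2).2
        have h5 := hνc i.1
        rw [hi, pow_zero] at h5
        have h6 : x * y * x⁻¹ * y⁻¹ ∈ (H i.1 ⊓ M : Subgroup G) := by
          refine Subgroup.mem_inf.2 ⟨?_, comm_mem_PhiP p x y⟩
          exact mul_mem (mul_mem (mul_mem hx hy) (inv_mem hx)) (inv_mem hy)
        rw [Subgroup.eq_bot_of_card_eq _ h5, Subgroup.mem_bot] at h6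
        calc x * y = (x * y * x⁻¹ * y⁻¹) * (y * x) := by group
          _ = y * x := by rw [h6, one_mul]
    rw [Nat.card_eq_fintype_card, Fintype.card_coe] at hJab
    have hpk : 1 ≤ p ^ k := Nat.one_le_pow _ _ hp.pos
    have h7 : t + 2 ≤ 2 * (J.card - 1) := by omega
    have h8 : (t + 2) ^ 2 ≤ 4 * s := by
      calc (t + 2) ^ 2 ≤ (2 * (J.card - 1)) ^ 2 := Nat.pow_le_pow_left h7 2
        _ = 4 * (J.card - 1) ^ 2 := by ring
        _ ≤ 4 * s := by gcongr
    rw [hst] at h8
    nlinarith
  -- conclusion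
  by_cases hexc : p = 2 ∧ e = 1 ∧ a = 3
  · obtain ⟨rfl, rfl, rfl⟩ := hexc
    have hs16 : s = 16 := by rw [hs, hu]; norm_num
    have ht8' : t = 8 := by rw [ht, hu]; norm_num
    refine exceptional H (by rw [← hs16]; exact h) ?_ ?_
    · rw [← Nat.card_eq_fintype_card, hι, ht8']
    · rw [← hM, hk]
      rw [ht8'] at h4
      have h5 : 9 ≤ M.index - 1 := by
        refine le_trans ?_ h2
        have h6 : ∀ i ∈ (Finset.univ : Finset ι), 1 ≤ (H i ⊔ M).index - 1 := by
          intro i _
          have := hgp i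
          omega
        have h7 := Finset.sum_le_sum h6
        simp only [Finset.sum_const, Finset.card_univ, smul_eq_mul, mul_one] at h7
        rw [← Nat.card_eq_fintype_card, hι, ht8'] at h7
        exact h7
      rw [hs16] at hw
      have hk3 : 3 ≤ k := by
        by_contra hcon
        have : 2 ^ k ≤ 2 ^ 2 := Nat.pow_le_pow_right (by norm_num) (by omega)
        omega
      have hk4 : k ≤ 4 := by
        by_contra hcon
        have h6 : 2 ^ 5 ≤ 2 ^ k := Nat.pow_le_pow_right (by norm_num) (by omega)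
        have h7 : 10 * 2 ^ 5 ≤ M.index * 2 ^ k := Nat.mul_le_mul (by omega) h6
        omega
      interval_cases k
      · left; rfl
      · right; rfl
  · exact numeric hp he ha hk1 hexc (by rw [← Nat.card_eq_fintype_card, hι])
      ν (fun i => (H i ⊔ M).index) hgd hgp h1 hw h2 h3 h4

end Pool.Agent.Helper90.ST
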